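import Mathlib

/-! A minimal (up to an additive constant) conditional complexity-like function. -/

namespace Pool.Agent.P.MP_6b7d8e_lc

open scoped ENNReal
open Nat.Partrec Nat.Partrec.Code Encodable Denumerable

/-- Minimum of `a` and `f n` for `n < s`. -/
def minUpTo (a : ℕ) (f : ℕ → ℕ) (s : ℕ) : ℕ := Nat.rec a (fun n r => min r (f n)) s

theorem le_minUpTo_iff {b a : ℕ} {f : ℕ → ℕ} {s : ℕ} :
    b ≤ minUpTo a f s ↔ b ≤ a ∧ ∀ n < s, b ≤ f n := by
  induction s with
  | zero => simp [minUpTo]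
  | succ s ih =>
    have : minUpTo a f (s + 1) = min (minUpTo a f s) (f s) := rfl
    rw [this, le_min_iff, ih]
    constructor
    · rintro ⟨⟨h1, h2⟩, h3⟩
      refine ⟨h1, fun n hn => ?_⟩
      rcases Nat.lt_succ_iff_lt_or_eq.1 hn with h | rfl
      · exact h2 n h
      · exact h3
    · rintro ⟨h1, h2⟩
      exact ⟨⟨h1, fun n hn => h2 n (by omega)⟩, h2 s (by omega)⟩

theorem minUpTo_le_base (a : ℕ) (f : ℕ → ℕ) (s : ℕ) : minUpTo a f s ≤ a :=
  (le_minUpTo_iff.1 le_rfl).1

theorem minUpTo_le (a : ℕ) (f : ℕ → ℕ) {s n : ℕ} (h : n < s) : minUpTo a f s ≤ f n :=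
  (le_minUpTo_iff.1 le_rfl).2 n h

theorem minUpTo_cases (a : ℕ) (f : ℕ → ℕ) (s : ℕ) :
    minUpTo a f s = a ∨ ∃ n, minUpTo a f s = f n := by
  induction s with
  | zero => exact Or.inl rfl
  | succ s ih =>
    have : minUpTo a f (s + 1) = min (minUpTo a f s) (f s) := rfl
    rw [this]
    rcases min_choice (minUpTo a f s) (f s) with h | h
    · rw [h]; exact ih
    · exact Or.inr ⟨s, h⟩

theorem minUpTo_primrec {α : Type} [Primcodable α] {a s : α → ℕ} {f : α → ℕ → ℕ}
    (ha : Primrec a) (hf : Primrec₂ f) (hs : Primrec s) :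
    Primrec fun x => minUpTo (a x) (f x) (s x) :=
  Primrec.nat_rec' (h := fun x p => min p.2 (f x p.1)) hs ha
    (Primrec.nat_min.comp (Primrec.snd.comp Primrec.snd)
      (hf.comp Primrec.fst (Primrec.fst.comp Primrec.snd))).to₂

/-- Stage `s` approximation given by the code `e`. -/
def tau (s e m l : ℕ) : ℕ :=
  minUpTo (m + 1) (fun n => (evaln s (ofNat Code e) (Nat.pair n (Nat.pair m l))).getD (m + 1)) s

/-- Scaled weight of the stage `s` approximation. -/
def wsum (s e l : ℕ) : ℕ :=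
  Nat.rec 0 (fun m r => r + if (decode₂ (List Bool) m).isSome then 2 ^ (s - tau s e m l) else 0) s

/-- Trimmed approximation. -/
def theta (e m l s : ℕ) : ℕ :=
  Nat.rec (m + 1) (fun s r => if wsum s e l ≤ 2 ^ (s + 1) then tau s e m l else r) s

/-- Universal approximation. -/
def kzero (s m l : ℕ) : ℕ := minUpTo (m + 2) (fun e => theta e m l s + e + 4) s

theorem pow_primrec : Primrec₂ ((· ^ ·) : ℕ → ℕ → ℕ) := Primrec₂.unpaired'.1 Nat.Primrec.pow

theorem tau_primrec {α : Type} [Primcodable α] {s e m l : α → ℕ} (hs : Primrec s)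
    (he : Primrec e) (hm : Primrec m) (hl : Primrec l) :
    Primrec fun x => tau (s x) (e x) (m x) (l x) := by
  unfold tau
  refine minUpTo_primrec (Primrec.succ.comp hm) ?_ hs
  exact (Primrec.option_getD.comp (primrec_evaln.comp
    (((hs.comp Primrec.fst).pair ((Primrec.ofNat Code).comp (he.comp Primrec.fst))).pair
      (Primrec₂.natPair.comp Primrec.snd
        (Primrec₂.natPair.comp (hm.comp Primrec.fst) (hl.comp Primrec.fst)))))
    (Primrec.succ.comp (hm.comp Primrec.fst))).to₂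

theorem wsum_primrec {α : Type} [Primcodable α] {s e l : α → ℕ} (hs : Primrec s)
    (he : Primrec e) (hl : Primrec l) : Primrec fun x => wsum (s x) (e x) (l x) := by
  unfold wsum
  refine Primrec.nat_rec' (h := fun x p => p.2 +
    if (decode₂ (List Bool) p.1).isSome then 2 ^ (s x - tau (s x) (e x) p.1 (l x)) else 0)
    hs (Primrec.const 0) ?_
  refine Primrec₂.mk ?_
  refine Primrec.nat_add.comp (Primrec.snd.comp Primrec.snd) (Primrec.ite ?_ ?_
    (Primrec.const 0))
  · exact Primrec.eq.comp (Primrec.option_isSome.comp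
      (Primrec.decode₂.comp (Primrec.fst.comp Primrec.snd))) (Primrec.const true)
  · exact pow_primrec.comp (Primrec.const 2) (Primrec.nat_sub.comp (hs.comp Primrec.fst)
      (tau_primrec (hs.comp Primrec.fst) (he.comp Primrec.fst) (Primrec.fst.comp Primrec.snd)
        (hl.comp Primrec.fst)))

theorem theta_primrec {α : Type} [Primcodable α] {s e m l : α → ℕ} (hs : Primrec s)
    (he : Primrec e) (hm : Primrec m) (hl : Primrec l) :
    Primrec fun x => theta (e x) (m x) (l x) (s x) := by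
  unfold theta
  refine Primrec.nat_rec' (h := fun x p =>
    if wsum p.1 (e x) (l x) ≤ 2 ^ (p.1 + 1) then tau p.1 (e x) (m x) (l x) else p.2)
    hs (Primrec.succ.comp hm) ?_
  refine Primrec₂.mk ?_
  refine Primrec.ite ?_ ?_ (Primrec.snd.comp Primrec.snd)
  · exact Primrec.nat_le.comp (wsum_primrec (Primrec.fst.comp Primrec.snd) (he.comp Primrec.fst)
      (hl.comp Primrec.fst))
      (pow_primrec.comp (Primrec.const 2) (Primrec.succ.comp (Primrec.fst.comp Primrec.snd)))
  · exact tau_primrec (Primrec.fst.comp Primrec.snd) (he.comp Primrec.fst) (hm.comp Primrec.fst)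
      (hl.comp Primrec.fst)

theorem kzero_primrec {α : Type} [Primcodable α] {s m l : α → ℕ} (hs : Primrec s)
    (hm : Primrec m) (hl : Primrec l) : Primrec fun x => kzero (s x) (m x) (l x) := by
  unfold kzero
  refine minUpTo_primrec (Primrec.nat_add.comp hm (Primrec.const 2)) ?_ hs
  exact (Primrec.nat_add.comp (Primrec.nat_add.comp
    (theta_primrec (hs.comp Primrec.fst) Primrec.snd (hm.comp Primrec.fst) (hl.comp Primrec.fst))
    Primrec.snd) (Primrec.const 4)).to₂

theorem tau_le (s e m l : ℕ) : tau s e m l ≤ m + 1 := minUpTo_le_base _ _ _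

theorem tau_anti {s s' : ℕ} (h : s ≤ s') (e m l : ℕ) : tau s' e m l ≤ tau s e m l := by
  refine le_minUpTo_iff.2 ⟨tau_le _ _ _ _, fun n hn => ?_⟩
  cases hv : evaln s (ofNat Code e) (Nat.pair n (Nat.pair m l)) with
  | none => exact tau_le _ _ _ _
  | some v =>
    have h1 : evaln s' (ofNat Code e) (Nat.pair n (Nat.pair m l)) = some v := evaln_mono h hv
    have h2 := minUpTo_le (m + 1)
      (fun n => (evaln s' (ofNat Code e) (Nat.pair n (Nat.pair m l))).getD (m + 1))
      (lt_of_lt_of_le hn h)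
    simp only [h1] at h2
    exact h2

theorem tau_big {s m : ℕ} (h : s ≤ m) (e l : ℕ) : tau s e m l = m + 1 := by
  refine le_antisymm (tau_le _ _ _ _) (le_minUpTo_iff.2 ⟨le_rfl, fun n _ => ?_⟩)
  cases hv : evaln s (ofNat Code e) (Nat.pair n (Nat.pair m l)) with
  | none => exact le_rfl
  | some v =>
    have h1 := evaln_bound hv
    have h2 := Nat.right_le_pair n (Nat.pair m l)
    have h3 := Nat.left_le_pair m l
    omega

theorem wsum_eq (s e l : ℕ) : wsum s e l = ∑ m ∈ Finset.range s,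
    if (decode₂ (List Bool) m).isSome then 2 ^ (s - tau s e m l) else 0 := by
  unfold wsum
  generalize hg : (fun m => if (decode₂ (List Bool) m).isSome then 2 ^ (s - tau s e m l) else 0)
    = g
  have : ∀ t : ℕ, (Nat.rec 0 (fun m r => r + g m) t : ℕ) = ∑ m ∈ Finset.range t, g m := by
    intro t
    induction t with
    | zero => rfl
    | succ t ih => rw [Finset.sum_range_succ, ← ih]
  rw [← this s, ← hg]

theorem half_pow_mul (s : ℕ) : (2⁻¹ : ℝ≥0∞) ^ s * 2 ^ s = 1 := by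
  rw [← mul_pow, ENNReal.inv_mul_cancel (by norm_num) (by norm_num), one_pow]

theorem wsum_tsum (s e l : ℕ) : (2⁻¹ : ℝ≥0∞) ^ s * (wsum s e l : ℝ≥0∞) =
    ∑' x : List Bool, if encode x < s then (2⁻¹ : ℝ≥0∞) ^ tau s e (encode x) l else 0 := by
  have h1 : (∑' x : List Bool, if encode x < s then (2⁻¹ : ℝ≥0∞) ^ tau s e (encode x) l else 0) =
      ∑' m : ℕ, if (decode₂ (List Bool) m).isSome then
        (if m < s then (2⁻¹ : ℝ≥0∞) ^ tau s e m l else 0) else 0 := by
    rw [← Function.Injective.tsum_eq (encode_injective (α := List Bool))]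
    · simp
    · intro m hm
      rw [Function.mem_support] at hm
      rw [← decode₂_ne_none_iff]
      intro h
      simp [h] at hm
  rw [h1, tsum_eq_sum (s := Finset.range s), wsum_eq, Nat.cast_sum, Finset.mul_sum]
  · refine Finset.sum_congr rfl fun m hm => ?_
    have hm' := Finset.mem_range.1 hm
    have h2 := tau_le s e m l
    split_ifs with h
    · obtain ⟨d, hd⟩ : ∃ d, s = tau s e m l + d := ⟨s - tau s e m l, by omega⟩
      have h3 : s - tau s e m l = d := by omega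
      rw [h3]
      nth_rewrite 1 [hd]
      push_cast
      rw [pow_add, mul_assoc, half_pow_mul, mul_one]
    · simp
  · intro m hm
    rw [Finset.mem_range] at hm
    simp [hm]

theorem tsum_base (c : ℕ) : ∑' x : List Bool, (2⁻¹ : ℝ≥0∞) ^ (encode x + (c + 1)) ≤ 2⁻¹ ^ c := by
  calc ∑' x : List Bool, (2⁻¹ : ℝ≥0∞) ^ (encode x + (c + 1))
      ≤ ∑' n : ℕ, (2⁻¹ : ℝ≥0∞) ^ (n + (c + 1)) :=
        ENNReal.tsum_comp_le_tsum_of_injective encode_injective
          (fun n => (2⁻¹ : ℝ≥0∞) ^ (n + (c + 1)))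
    _ = 2⁻¹ ^ c := by
        simp only [pow_add]
        rw [ENNReal.tsum_mul_right, ENNReal.tsum_geometric, ENNReal.one_sub_inv_two, inv_inv,
          pow_one, mul_comm, mul_assoc, ENNReal.inv_mul_cancel (by norm_num) (by norm_num), mul_one]

theorem tsum_tau_le {s e l : ℕ} (h : wsum s e l ≤ 2 ^ (s + 1)) :
    ∑' x : List Bool, (2⁻¹ : ℝ≥0∞) ^ tau s e (encode x) l ≤ 3 := by
  have h1 : ∀ x : List Bool, (2⁻¹ : ℝ≥0∞) ^ tau s e (encode x) l ≤
      (if encode x < s then (2⁻¹ : ℝ≥0∞) ^ tau s e (encode x) l else 0) +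
        (2⁻¹ : ℝ≥0∞) ^ (encode x + (0 + 1)) := by
    intro x
    split_ifs with hx
    · exact le_self_add
    · rw [tau_big (by omega)]
      simp
  refine (ENNReal.tsum_le_tsum h1).trans ?_
  rw [ENNReal.tsum_add, ← wsum_tsum]
  have h2 : (2⁻¹ : ℝ≥0∞) ^ s * (wsum s e l : ℝ≥0∞) ≤ 2 := by
    calc (2⁻¹ : ℝ≥0∞) ^ s * (wsum s e l : ℝ≥0∞) ≤ (2⁻¹ : ℝ≥0∞) ^ s * ((2 ^ (s + 1) : ℕ) : ℝ≥0∞) := by
          gcongr
      _ = 2 := by
          push_cast
          rw [pow_succ, ← mul_assoc, half_pow_mul, one_mul]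
  calc _ ≤ (2 : ℝ≥0∞) + 2⁻¹ ^ 0 := add_le_add h2 (tsum_base 0)
    _ = 3 := by norm_num

theorem wsum_le_of {s e l : ℕ}
    (h : ∑' x : List Bool, (2⁻¹ : ℝ≥0∞) ^ tau s e (encode x) l ≤ 2) : wsum s e l ≤ 2 ^ (s + 1) := by
  have h1 : (2⁻¹ : ℝ≥0∞) ^ s * (wsum s e l : ℝ≥0∞) ≤ 2 := by
    rw [wsum_tsum]
    refine le_trans (ENNReal.tsum_le_tsum fun x => ?_) h
    split_ifs <;> simp
  have h2 : (wsum s e l : ℝ≥0∞) ≤ ((2 ^ (s + 1) : ℕ) : ℝ≥0∞) := by
    calc (wsum s e l : ℝ≥0∞) = 2 ^ s * ((2⁻¹ : ℝ≥0∞) ^ s * (wsum s e l : ℝ≥0∞)) := by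
          rw [← mul_assoc, mul_comm (2 ^ s), half_pow_mul, one_mul]
      _ ≤ 2 ^ s * 2 := by gcongr
      _ = ((2 ^ (s + 1) : ℕ) : ℝ≥0∞) := by push_cast; rw [pow_succ]
  exact_mod_cast h2

theorem theta_succ (e m l s : ℕ) :
    theta e m l (s + 1) = if wsum s e l ≤ 2 ^ (s + 1) then tau s e m l else theta e m l s := rfl

theorem tau_le_theta (e m l s : ℕ) : tau s e m l ≤ theta e m l s := by
  induction s with
  | zero => exact tau_le _ _ _ _
  | succ s ih =>
    rw [theta_succ]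
    split_ifs
    · exact tau_anti (Nat.le_succ s) _ _ _
    · exact (tau_anti (Nat.le_succ s) _ _ _).trans ih

theorem theta_anti (e m l : ℕ) : Antitone (theta e m l) := by
  refine antitone_nat_of_succ_le fun s => ?_
  rw [theta_succ]
  split_ifs
  · exact tau_le_theta _ _ _ _
  · exact le_rfl

theorem tsum_theta_le (e l s : ℕ) :
    ∑' x : List Bool, (2⁻¹ : ℝ≥0∞) ^ theta e (encode x) l s ≤ 3 := by
  induction s with
  | zero => exact (tsum_base 0).trans (by norm_num)
  | succ s ih =>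
    simp only [theta_succ]
    split_ifs with h
    · exact tsum_tau_le h
    · exact ih

theorem kzero_anti (m l : ℕ) : Antitone fun s => kzero s m l := by
  intro s s' h
  refine le_minUpTo_iff.2 ⟨minUpTo_le_base _ _ _, fun e he => ?_⟩
  have h1 := minUpTo_le (m + 2) (fun e => theta e m l s' + e + 4) (lt_of_lt_of_le he h)
  have h2 := theta_anti e m l h
  exact h1.trans (by omega)

theorem tsum_kzero_le (s l : ℕ) :
    ∑' x : List Bool, (2⁻¹ : ℝ≥0∞) ^ kzero s (encode x) l ≤ 1 := by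
  have h1 : ∀ x : List Bool, (2⁻¹ : ℝ≥0∞) ^ kzero s (encode x) l ≤
      (2⁻¹ : ℝ≥0∞) ^ (encode x + (1 + 1)) +
        ∑' e : ℕ, (2⁻¹ : ℝ≥0∞) ^ (theta e (encode x) l s + e + 4) := by
    intro x
    rcases minUpTo_cases (encode x + 2) (fun e => theta e (encode x) l s + e + 4) s with h | ⟨e, h⟩
    · rw [kzero, h]; exact le_self_add
    · rw [kzero, h]
      exact le_add_left (ENNReal.le_tsum (f := fun e =>
        (2⁻¹ : ℝ≥0∞) ^ (theta e (encode x) l s + e + 4)) e)
  refine (ENNReal.tsum_le_tsum h1).trans ?_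
  rw [ENNReal.tsum_add, ENNReal.tsum_comm]
  have h2 : ∑' (e : ℕ) (x : List Bool), (2⁻¹ : ℝ≥0∞) ^ (theta e (encode x) l s + e + 4) ≤
      2⁻¹ ^ 1 := by
    calc ∑' (e : ℕ) (x : List Bool), (2⁻¹ : ℝ≥0∞) ^ (theta e (encode x) l s + e + 4)
        ≤ ∑' e : ℕ, (2⁻¹ : ℝ≥0∞) ^ e * 2⁻¹ ^ 2 := by
          refine ENNReal.tsum_le_tsum fun e => ?_
          simp only [add_assoc, pow_add]
          rw [ENNReal.tsum_mul_right]
          calc _ ≤ (2 : ℝ≥0∞) ^ 2 * (2⁻¹ ^ e * 2⁻¹ ^ 4) := by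
                gcongr
                exact (tsum_theta_le e l s).trans (by norm_num)
            _ = 2⁻¹ ^ e * 2⁻¹ ^ 2 * (2⁻¹ ^ 2 * 2 ^ 2) := by ring
            _ = 2⁻¹ ^ e * 2⁻¹ ^ 2 := by rw [half_pow_mul, mul_one]
      _ = 2⁻¹ ^ 1 := by
          rw [ENNReal.tsum_mul_right, ENNReal.tsum_geometric, ENNReal.one_sub_inv_two, inv_inv,
            pow_succ', ← mul_assoc, ENNReal.mul_inv_cancel (by norm_num) (by norm_num), one_mul]
  calc _ ≤ (2⁻¹ : ℝ≥0∞) ^ 1 + 2⁻¹ ^ 1 := add_le_add (tsum_base 1) h2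
    _ = 1 := by rw [pow_one, ENNReal.inv_two_add_inv_two]

theorem half_pow_min (a b : ℕ) : (2⁻¹ : ℝ≥0∞) ^ min a b ≤ 2⁻¹ ^ a + 2⁻¹ ^ b := by
  rcases min_choice a b with h | h <;> rw [h]
  · exact le_self_add
  · exact le_add_self

theorem kzero_min (k : ℕ → List Bool → List Bool → ℕ) (K : List Bool → List Bool → ℕ)
    (hk : Computable (fun t : ℕ × List Bool × List Bool => k t.1 t.2.1 t.2.2))
    (hle : ∀ n x y, K x y ≤ k n x y) (hlim : ∀ x y, ∃ n, k n x y = K x y)
    (hsum : ∀ y, ∑' x : List Bool, (2⁻¹ : ℝ≥0∞) ^ K x y ≤ 1) :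
    ∃ c : ℕ, ∀ x y, ∃ s, kzero s (encode x) (encode y) ≤ K x y + c := by
  obtain ⟨c, hc⟩ := exists_code.1 hk
  have hev : ∀ n x y, eval c (Nat.pair n (Nat.pair (encode x) (encode y))) = Part.some (k n x y) := by
    intro n x y
    have : Nat.pair n (Nat.pair (encode x) (encode y)) = encode (n, x, y) := rfl
    rw [this, hc]
    simp
  have hlow : ∀ s x y, min (K x y) (encode x + (0 + 1)) ≤ tau s (encode c) (encode x) (encode y) := by
    intro s x y
    refine le_minUpTo_iff.2 ⟨min_le_right _ _, fun n _ => ?_⟩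
    rw [ofNat_encode]
    cases hv : evaln s c (Nat.pair n (Nat.pair (encode x) (encode y))) with
    | none => exact min_le_right _ _
    | some v =>
      have h1 := evaln_sound hv
      rw [hev, Part.mem_some_iff] at h1
      rw [h1]
      exact (min_le_left _ _).trans (hle n x y)
  have hacc : ∀ (s : ℕ) (y : List Bool), wsum s (encode c) (encode y) ≤ 2 ^ (s + 1) := by
    intro s y
    refine wsum_le_of ?_
    calc _ ≤ ∑' x : List Bool, ((2⁻¹ : ℝ≥0∞) ^ K x y + 2⁻¹ ^ (encode x + (0 + 1))) :=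
          ENNReal.tsum_le_tsum fun x => le_trans
            (pow_le_pow_of_le_one (by norm_num) (by norm_num) (hlow s x y)) (half_pow_min _ _)
      _ ≤ 1 + 2⁻¹ ^ 0 := by
          rw [ENNReal.tsum_add]
          exact add_le_add (hsum y) (tsum_base 0)
      _ = 2 := by norm_num
  refine ⟨encode c + 4, fun x y => ?_⟩
  obtain ⟨n, hn⟩ := hlim x y
  have hmem : k n x y ∈ eval c (Nat.pair n (Nat.pair (encode x) (encode y))) := by
    rw [hev]; exact Part.mem_some _
  obtain ⟨s0, hs0⟩ := evaln_complete.1 hmem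
  set s := max (max s0 (n + 1)) (encode c) with hs
  refine ⟨s + 1, ?_⟩
  have h1 := minUpTo_le (encode x + 2)
    (fun e => theta e (encode x) (encode y) (s + 1) + e + 4) (s := s + 1) (n := encode c) (by omega)
  have h2 : theta (encode c) (encode x) (encode y) (s + 1) =
      tau s (encode c) (encode x) (encode y) := by rw [theta_succ, if_pos (hacc s y)]
  have h3 := minUpTo_le (encode x + 1) (fun n => (evaln s (ofNat Code (encode c))
    (Nat.pair n (Nat.pair (encode x) (encode y)))).getD (encode x + 1)) (s := s) (n := n) (by omega)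
  have h4 : evaln s c (Nat.pair n (Nat.pair (encode x) (encode y))) = some (k n x y) :=
    evaln_mono (by omega) hs0
  simp only [ofNat_encode, h4, Option.getD_some] at h3
  have h5 : tau s (encode c) (encode x) (encode y) ≤ k n x y := by
    unfold tau
    simpa only [ofNat_encode] using h3
  simp only [h2] at h1
  unfold kzero
  omega

/-- The limit of an antitone sequence of naturals is reached. -/
theorem exists_lim (f : ℕ → ℕ) (hf : Antitone f) :
    ∃ a, (∀ᶠ n in Filter.atTop, f n = a) ∧ ∀ n, a ≤ f n := by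
  obtain ⟨n, hn⟩ : sInf (Set.range f) ∈ Set.range f := Nat.sInf_mem (Set.range_nonempty f)
  refine ⟨f n, Filter.eventually_atTop.2 ⟨n, fun m hm => le_antisymm (hf hm) ?_⟩, fun m => ?_⟩ <;>
  · rw [hn]; exact Nat.sInf_le ⟨m, rfl⟩

/-- A minimal function together with its approximations. -/
theorem exists_univ : ∃ (k0 : ℕ → List Bool → List Bool → ℕ) (K0 : List Bool → List Bool → ℕ),
    Primrec (fun t : ℕ × List Bool × List Bool => k0 t.1 t.2.1 t.2.2) ∧
    (∀ x y, Antitone fun n => k0 n x y) ∧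
    (∀ x y, ∀ᶠ n in Filter.atTop, k0 n x y = K0 x y) ∧
    (∀ y, ∑' x : List Bool, (2⁻¹ : ℝ≥0∞) ^ K0 x y ≤ 1) ∧
    ∀ (k : ℕ → List Bool → List Bool → ℕ) (K : List Bool → List Bool → ℕ),
      Computable (fun t : ℕ × List Bool × List Bool => k t.1 t.2.1 t.2.2) →
      (∀ n x y, K x y ≤ k n x y) → (∀ x y, ∃ n, k n x y = K x y) →
      (∀ y, ∑' x : List Bool, (2⁻¹ : ℝ≥0∞) ^ K x y ≤ 1) →
      ∃ c : ℕ, ∀ x y, K0 x y ≤ K x y + c := by
  choose K0 h1 h2 using fun x y : List Bool =>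
    exists_lim (fun s => kzero s (encode x) (encode y)) (kzero_anti _ _)
  refine ⟨fun s x y => kzero s (encode x) (encode y), K0, ?_, fun x y => kzero_anti _ _, h1, ?_, ?_⟩
  · exact kzero_primrec Primrec.fst (Primrec.encode.comp (Primrec.fst.comp Primrec.snd))
      (Primrec.encode.comp (Primrec.snd.comp Primrec.snd))
  · intro y
    rw [ENNReal.tsum_eq_iSup_sum]
    refine iSup_le fun F => ?_
    have h3 : ∀ᶠ s in Filter.atTop, ∀ x ∈ F, kzero s (encode x) (encode y) = K0 x y :=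
      (Filter.eventually_all_finset F).2 fun x _ => h1 x y
    obtain ⟨s, hs⟩ := h3.exists
    calc ∑ x ∈ F, (2⁻¹ : ℝ≥0∞) ^ K0 x y = ∑ x ∈ F, (2⁻¹ : ℝ≥0∞) ^ kzero s (encode x) (encode y) :=
          Finset.sum_congr rfl fun x hx => by rw [hs x hx]
      _ ≤ ∑' x : List Bool, (2⁻¹ : ℝ≥0∞) ^ kzero s (encode x) (encode y) := ENNReal.sum_le_tsum F
      _ ≤ 1 := tsum_kzero_le _ _
  · intro k K hk hle hlim hsum
    obtain ⟨c, hc⟩ := kzero_min k K hk hle hlim hsum
    refine ⟨c, fun x y => ?_⟩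
    obtain ⟨s, hs⟩ := hc x y
    exact (h2 x y s).trans hs

end Pool.Agent.P.MP_6b7d8e_lc
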